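import Pool.Agent.N848.SM.Stm
import Pool.Agent.N883.FF.Tot

/-!
# Project SM: the proportion among the cube-free primary elements (SM/TOT, helper278)

Port of `Pool/Agent/N883/FF/Tot.lean` (helper499).
-/

set_option autoImplicit false

open scoped Classical
open Finset Filter

namespace Pool.Agent.N278.SM

open Pool.Agent.Y692.QS (Ei w nr toC)
open Pool.Agent.Y715.T.RecG (Pq)
open Pool.Agent.Y703.XK (c9 S_C9 S_LOW)
open Pool.Agent.Y433.XK (pN pN_pos)
open Pool.Agent.R419.KF (wt SG el mem_SG ff ff_summable)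
open Pool.Agent.N883.FF (SU ClP ClU)
open Pool.Agent.N883.FF.Tot (Nt su_le low_Nt card_eq card_cls)
open Pool.Agent.N848.SM

/-- the number of the good pairs -/
noncomputable def Gt (i : ZMod 3 × ZMod 3) (X : ℕ) : ℕ :=
  ∑ M ∈ SG X, ((SU M (X / pN M)).filter (fun S => Nz i M S ∧ Gd3 i M S)).card

/-- the number of the pairs with the condition at three -/
noncomputable def Zt (i : ZMod 3 × ZMod 3) (X : ℕ) : ℕ :=
  ∑ M ∈ SG X, ((SU M (X / pN M)).filter (fun S => Nz i M S)).card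

theorem abs_le_card (hc9 : S_C9) (i : ZMod 3 × ZMod 3) (M : Finset Ei) (Y : ℕ) :
    |(((SU M Y).filter (fun S => Nz i M S ∧ Gd3 i M S)).card : ℝ) -
      4 / 3 * c9 * (((SU M Y).filter (fun S => Nz i M S)).card : ℝ)| ≤ 2 * ((SU M Y).card : ℝ) := by
  have h2 : (((SU M Y).filter (fun S => Nz i M S ∧ Gd3 i M S)).card : ℝ) ≤ ((SU M Y).card : ℝ) := by
    exact_mod_cast card_filter_le _ _
  have h3 : (((SU M Y).filter (fun S => Nz i M S)).card : ℝ) ≤ ((SU M Y).card : ℝ) := by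
    exact_mod_cast card_filter_le _ _
  have h4 : (0 : ℝ) ≤ (((SU M Y).filter (fun S => Nz i M S ∧ Gd3 i M S)).card : ℝ) :=
    Nat.cast_nonneg _
  have h5 : (0 : ℝ) ≤ (((SU M Y).filter (fun S => Nz i M S)).card : ℝ) := Nat.cast_nonneg _
  have h6 : (0 : ℝ) ≤ ((SU M Y).card : ℝ) := Nat.cast_nonneg _
  have h7 : 0 < c9 := hc9.2.1
  have h8 : c9 < 1 := hc9.2.2.1
  have h9 : 4 / 3 * c9 * (((SU M Y).filter (fun S => Nz i M S)).card : ℝ) ≤
      4 / 3 * ((SU M Y).card : ℝ) := by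
    calc 4 / 3 * c9 * (((SU M Y).filter (fun S => Nz i M S)).card : ℝ)
        ≤ 4 / 3 * 1 * ((SU M Y).card : ℝ) := by gcongr
      _ = 4 / 3 * ((SU M Y).card : ℝ) := by ring
  have h10 : 0 ≤ 4 / 3 * c9 * (((SU M Y).filter (fun S => Nz i M S)).card : ℝ) := by positivity
  rw [abs_le]
  constructor <;> linarith

/-- the error -/
theorem err (hc9 : S_C9) {i : ZMod 3 × ZMod 3} (hA : AsyM i) (δ : ℝ) (hδ : 0 < δ) :
    ∀ᶠ X : ℕ in atTop, |(Gt i X : ℝ) - 4 / 3 * c9 * (Zt i X : ℝ)| ≤ δ * X := by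
  obtain ⟨T₀, hT₀⟩ := (summable_iff_vanishing_norm.1 ff_summable) (δ / 64) (by positivity)
  set ε' : ℝ := δ / (2 * ((T₀.card : ℝ) + 1)) with hε'
  have hε'0 : 0 < ε' := by positivity
  have hev : ∀ᶠ X : ℕ in atTop, ∀ M ∈ T₀.filter (fun M => ∀ q ∈ M, Pq q),
      |(((SU M (X / pN M)).filter (fun S => Nz i M S ∧ Gd3 i M S)).card : ℝ) -
        4 / 3 * c9 * (((SU M (X / pN M)).filter (fun S => Nz i M S)).card : ℝ)| ≤
        ε' * X := by
    rw [eventually_all_finset]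
    intro M hM
    have hp := pN_pos (mem_filter.1 hM).2
    obtain ⟨X₀, hX₀⟩ := hA M ε' hε'0
    filter_upwards [eventually_ge_atTop (X₀ * pN M)] with X hX
    have h5 : X₀ ≤ X / pN M := (Nat.le_div_iff_mul_le hp).2 hX
    refine (hX₀ _ h5).trans ?_
    have h6 : ((X / pN M : ℕ) : ℝ) ≤ X := by exact_mod_cast Nat.div_le_self _ _
    gcongr
  filter_upwards [hev] with X hX
  have k1 : (Gt i X : ℝ) - 4 / 3 * c9 * (Zt i X : ℝ) = ∑ M ∈ SG X,
      ((((SU M (X / pN M)).filter (fun S => Nz i M S ∧ Gd3 i M S)).card : ℝ) -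
        4 / 3 * c9 * (((SU M (X / pN M)).filter (fun S => Nz i M S)).card : ℝ)) := by
    rw [sum_sub_distrib, ← mul_sum]
    unfold Gt Zt
    push_cast
    rfl
  have hX0 : (0 : ℝ) ≤ X := Nat.cast_nonneg _
  rw [k1]
  refine (abs_sum_le_sum_abs _ _).trans ?_
  rw [← sum_filter_add_sum_filter_not (SG X) (fun M => M ∈ T₀)]
  have k2 : ∑ M ∈ (SG X).filter (fun M => M ∈ T₀),
      |(((SU M (X / pN M)).filter (fun S => Nz i M S ∧ Gd3 i M S)).card : ℝ) -
      4 / 3 * c9 * (((SU M (X / pN M)).filter (fun S => Nz i M S)).card : ℝ)| ≤ δ / 2 * X := by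
    have k3 : ∑ M ∈ (SG X).filter (fun M => M ∈ T₀),
        |(((SU M (X / pN M)).filter (fun S => Nz i M S ∧ Gd3 i M S)).card : ℝ) -
          4 / 3 * c9 * (((SU M (X / pN M)).filter (fun S => Nz i M S)).card : ℝ)| ≤
        ∑ M ∈ (SG X).filter (fun M => M ∈ T₀), ε' * X := by
      refine sum_le_sum fun M hM => hX M ?_
      rw [mem_filter] at hM ⊢
      exact ⟨hM.2, (mem_SG.1 hM.1).1⟩
    refine k3.trans ?_
    rw [sum_const, nsmul_eq_mul]
    have k4 : ((((SG X).filter fun M => M ∈ T₀).card : ℕ) : ℝ) ≤ (T₀.card : ℝ) + 1 := by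
      have : ((SG X).filter fun M => M ∈ T₀).card ≤ T₀.card :=
        card_le_card fun M hM => (mem_filter.1 hM).2
      have h6 : ((((SG X).filter fun M => M ∈ T₀).card : ℕ) : ℝ) ≤ (T₀.card : ℝ) := by
        exact_mod_cast this
      linarith
    have k5 : (0 : ℝ) < (T₀.card : ℝ) + 1 := by positivity
    calc ((((SG X).filter fun M => M ∈ T₀).card : ℕ) : ℝ) * (ε' * X) ≤
        ((T₀.card : ℝ) + 1) * (ε' * X) := by gcongr
      _ = δ / 2 * X := by
        rw [hε']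
        field_simp
  have k3 : ∑ M ∈ (SG X).filter (fun M => ¬ M ∈ T₀),
      |(((SU M (X / pN M)).filter (fun S => Nz i M S ∧ Gd3 i M S)).card : ℝ) -
        4 / 3 * c9 * (((SU M (X / pN M)).filter (fun S => Nz i M S)).card : ℝ)| ≤
      δ / 2 * X := by
    have k4 : ∑ M ∈ (SG X).filter (fun M => ¬ M ∈ T₀),
        |(((SU M (X / pN M)).filter (fun S => Nz i M S ∧ Gd3 i M S)).card : ℝ) -
          4 / 3 * c9 * (((SU M (X / pN M)).filter (fun S => Nz i M S)).card : ℝ)| ≤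
        ∑ M ∈ (SG X).filter (fun M => ¬ M ∈ T₀), 32 * (X * ff M) := by
      refine sum_le_sum fun M hM => (abs_le_card hc9 i M _).trans ?_
      have := su_le (mem_SG.1 (mem_filter.1 hM).1).1 X
      linarith
    refine k4.trans ?_
    rw [← mul_sum, ← mul_sum]
    have k5 := hT₀ ((SG X).filter fun M => ¬ M ∈ T₀) (by
      rw [disjoint_left]
      intro M hM hM'
      exact (mem_filter.1 hM).2 hM')
    have k6 := (le_abs_self _).trans ((Real.norm_eq_abs _).symm.le.trans k5.le)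
    calc 32 * ((X : ℝ) * ∑ M ∈ (SG X).filter (fun M => ¬ M ∈ T₀), ff M) ≤
        32 * ((X : ℝ) * (δ / 64)) := by gcongr
      _ = δ / 2 * X := by ring
  calc _ ≤ δ / 2 * X + δ / 2 * X := add_le_add k2 k3
    _ = δ * X := by ring

/-- the difference of the proportions -/
theorem lim0 (hc9 : S_C9) (hLo : S_LOW) {i : ZMod 3 × ZMod 3} (hA : AsyM i) :
    Tendsto (fun X : ℕ => (Gt i X : ℝ) / (Nt X : ℝ) - 4 / 3 * c9 * ((Zt i X : ℝ) / (Nt X : ℝ)))
      atTop (nhds 0) := by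
  obtain ⟨c, X₀, hc, hlow⟩ := low_Nt hLo
  rw [Metric.tendsto_nhds]
  intro ε hε
  filter_upwards [err hc9 hA (c * ε / 2) (by positivity), eventually_ge_atTop (max X₀ 1)]
    with X hX hX0
  have hlo := hlow X ((le_max_left _ _).trans hX0)
  have hX1 : (0 : ℝ) < X := by exact_mod_cast (le_max_right _ _).trans hX0
  have hN : (0 : ℝ) < Nt X := lt_of_lt_of_le (by positivity) hlo
  rw [Real.dist_eq, sub_zero]
  have e3 : (Gt i X : ℝ) / (Nt X : ℝ) - 4 / 3 * c9 * ((Zt i X : ℝ) / (Nt X : ℝ)) =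
      ((Gt i X : ℝ) - 4 / 3 * c9 * (Zt i X : ℝ)) / (Nt X : ℝ) := by
    rw [sub_div, mul_div_assoc]
  rw [e3, abs_div, abs_of_pos hN, div_lt_iff₀ hN]
  calc |(Gt i X : ℝ) - 4 / 3 * c9 * (Zt i X : ℝ)| ≤ c * ε / 2 * X := hX
    _ = ε / 2 * (c * X) := by ring
    _ ≤ ε / 2 * (Nt X : ℝ) := by gcongr
    _ < ε * (Nt X : ℝ) := by
      apply mul_lt_mul_of_pos_right _ hN
      linarith

/-- SM/TOT. -/
theorem t_TOT3 (h9 : Pool.Agent.Y703.XK.S_C9) (hL : Pool.Agent.Y703.XK.S_LOW) :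
    Pool.Agent.N848.SM.S_TOT3 := by
  intro i hA T Z ζ hT hZ hlim
  have e1 : ∀ X : ℕ, ({D : Ei | nr D ≤ X ∧ ClP D ∧ T D}.ncard : ℝ) = (Gt i X : ℝ) := by
    intro X
    have h := card_eq X (fun M S => Nz i M S ∧ Gd3 i M S) T hT
    have h2 : {D : Ei | nr D ≤ X ∧ ClP D ∧ T D}.ncard = Gt i X := by
      rw [h]
      unfold Gt
      refine sum_congr rfl fun M _ => congrArg Finset.card ?_
      ext S
      simp only [mem_filter]
    exact congrArg (fun k : ℕ => (k : ℝ)) h2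
  have e2 : ∀ X : ℕ, ({D : Ei | nr D ≤ X ∧ ClP D ∧ Z D}.ncard : ℝ) = (Zt i X : ℝ) := by
    intro X
    have h := card_eq X (fun M S => Nz i M S) Z hZ
    have h2 : {D : Ei | nr D ≤ X ∧ ClP D ∧ Z D}.ncard = Zt i X := by
      rw [h]
      unfold Zt
      refine sum_congr rfl fun M _ => congrArg Finset.card ?_
      ext S
      simp only [mem_filter]
    exact congrArg (fun k : ℕ => (k : ℝ)) h2
  have e3 : ∀ X : ℕ, ({D : Ei | nr D ≤ X ∧ ClP D}.ncard : ℝ) = (Nt X : ℝ) := by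
    intro X
    rw [card_cls]
  have h1 := (lim0 h9 hL hA).add (hlim.const_mul (4 / 3 * c9))
  rw [zero_add] at h1
  refine h1.congr fun X => ?_
  rw [e1, e2, e3]
  ring

end Pool.Agent.N278.SM
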